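import Mathlib

/-! Smooth limit of approximate solutions of a linear first order system. -/

open scoped Topology ContDiff ENNReal
open Set MeasureTheory Metric Filter

set_option linter.unusedSectionVars false

noncomputable section

namespace Pool.Agent.Lib.TB53

variable {V W : Type} [NormedAddCommGroup V] [NormedSpace ℝ V] [FiniteDimensional ℝ V]
  [MeasurableSpace V] [BorelSpace V] (μ : Measure V) [μ.IsAddHaarMeasure]
  [NormedAddCommGroup W] [NormedSpace ℝ W] [FiniteDimensional ℝ W]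

theorem mem_add {c x y : V} {ρ δ : ℝ} (hx : x ∈ ball c (ρ - δ)) (hy : y ∈ closedBall (0 : V) δ) :
    x + y ∈ closedBall c ρ := by
  rw [mem_ball, dist_eq_norm] at hx
  rw [mem_closedBall, dist_zero_right] at hy
  rw [mem_closedBall, dist_eq_norm, add_sub_right_comm]
  exact (norm_add_le _ _).trans (by linarith)

theorem int_add {Y : Type} [NormedAddCommGroup Y] {f : V → Y} {c x : V} {ρ δ : ℝ}
    (hf : ContinuousOn f (closedBall c ρ)) (hx : x ∈ ball c (ρ - δ)) :
    IntegrableOn (fun y => f (x + y)) (closedBall (0 : V) δ) μ :=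
  (hf.comp (continuous_const.add continuous_id).continuousOn fun _ hy =>
    mem_add hx hy).integrableOn_compact (isCompact_closedBall _ _)

theorem cont_fd {u : V → W} {c : V} {ρ : ℝ} (hu : ∀ z ∈ closedBall c ρ, ContDiffAt ℝ 1 u z) :
    ContinuousOn (fderiv ℝ u) (closedBall c ρ) := fun z hz =>
  ((hu z hz).continuousAt_fderiv one_ne_zero).continuousWithinAt

theorem der_av {u : V → W} {c x : V} {ρ δ : ℝ} (hu : ∀ z ∈ closedBall c ρ, ContDiffAt ℝ 1 u z)
    (hx : x ∈ ball c (ρ - δ)) :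
    HasFDerivAt (fun x => ∫ y in closedBall (0 : V) δ, u (x + y) ∂μ)
      (∫ y in closedBall (0 : V) δ, fderiv ℝ u (x + y) ∂μ) x := by
  have h0 : ContinuousOn u (closedBall c ρ) := fun z hz => (hu z hz).continuousAt.continuousWithinAt
  obtain ⟨B, hB⟩ := (isCompact_closedBall c ρ).exists_bound_of_continuousOn (cont_fd hu)
  have hs : ball c (ρ - δ) ∈ 𝓝 x := isOpen_ball.mem_nhds hx
  refine hasFDerivAt_integral_of_dominated_of_fderiv_le (F := fun x y => u (x + y))
    (F' := fun x y => fderiv ℝ u (x + y)) (bound := fun _ => B) hs ?_ (int_add μ h0 hx)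
    (int_add μ (cont_fd hu) hx).aestronglyMeasurable ?_ ?_ ?_
  · filter_upwards [hs] with w hw using (int_add μ h0 hw).aestronglyMeasurable
  · filter_upwards [ae_restrict_mem measurableSet_closedBall] with y hy w hw
    exact hB _ (mem_add hw hy)
  · exact integrableOn_const (isCompact_closedBall _ _).measure_lt_top.ne
  · filter_upwards [ae_restrict_mem measurableSet_closedBall] with y hy w hw
    exact (hasFDerivAt_comp_add_right y).2
      ((hu _ (mem_add hw hy)).differentiableAt one_ne_zero).hasFDerivAt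

theorem shift_le {r : V → ℝ} {c x : V} {ρ δ : ℝ} (hr : ContinuousOn r (closedBall c ρ))
    (h0 : ∀ z, 0 ≤ r z) (hx : x ∈ ball c (ρ - δ)) :
    ∫ y in closedBall (0 : V) δ, r (x + y) ∂μ ≤ ∫ z in closedBall c ρ, r z ∂μ := by
  have hi : Integrable ((closedBall c ρ).indicator r) μ :=
    (hr.integrableOn_compact (isCompact_closedBall _ _)).integrable_indicator
      measurableSet_closedBall
  calc _ = ∫ y in closedBall (0 : V) δ, (closedBall c ρ).indicator r (x + y) ∂μ :=
        setIntegral_congr_fun measurableSet_closedBall fun y hy =>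
          (indicator_of_mem (mem_add hx hy) r).symm
    _ ≤ ∫ y, (closedBall c ρ).indicator r (x + y) ∂μ :=
        setIntegral_le_integral (hi.comp_add_left x)
          (Eventually.of_forall fun y => indicator_nonneg (fun z _ => h0 z) _)
    _ = _ := by
        rw [integral_add_left_eq_self, integral_indicator measurableSet_closedBall]

/-- The average over a ball. -/
def av {Y : Type} [NormedAddCommGroup Y] [NormedSpace ℝ Y] (δ : ℝ) (u : V → Y) (x : V) : Y :=
  (μ.real (closedBall (0 : V) δ))⁻¹ • ∫ y in closedBall (0 : V) δ, u (x + y) ∂μ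

theorem vol_pos {δ : ℝ} (hδ : 0 < δ) : 0 < μ.real (closedBall (0 : V) δ) :=
  ENNReal.toReal_pos (measure_closedBall_pos μ _ hδ).ne'
    (isCompact_closedBall _ _).measure_lt_top.ne

theorem av_le {u : V → W} {c x : V} {ρ δ C : ℝ} (hδ : 0 < δ)
    (hC : ∀ z ∈ closedBall c ρ, ‖u z‖ ≤ C) (hx : x ∈ ball c (ρ - δ)) : ‖av μ δ u x‖ ≤ C := by
  have hv := vol_pos μ hδ
  have := norm_setIntegral_le_of_norm_le_const (μ := μ) (f := fun y => u (x + y)) (C := C)
    (isCompact_closedBall (0 : V) δ).measure_lt_top fun y hy => hC _ (mem_add hx hy)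
  rw [av, norm_smul, norm_inv, Real.norm_of_nonneg hv.le, inv_mul_le_iff₀ hv, mul_comm]
  exact this

theorem av_sys {u : V → W} {Φ : V → W →L[ℝ] V →L[ℝ] W} {c x : V} {ρ δ C o : ℝ} (hδ : 0 < δ)
    (hu : ∀ z ∈ closedBall c ρ, ContDiffAt ℝ 1 u z) (hC : ∀ z ∈ closedBall c ρ, ‖u z‖ ≤ C)
    (hΦ : ContinuousOn Φ (closedBall c ρ)) (hx : x ∈ ball c (ρ - δ))
    (ho : ∀ y ∈ closedBall (0 : V) δ, ‖Φ (x + y) - Φ x‖ ≤ o) :
    ‖av μ δ (fderiv ℝ u) x - Φ x (av μ δ u x)‖ ≤
      (∫ z in closedBall c ρ, ‖fderiv ℝ u z - Φ z (u z)‖ ∂μ) / μ.real (closedBall (0 : V) δ) +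
        o * C := by
  have hv := vol_pos μ hδ
  have h0 : ContinuousOn u (closedBall c ρ) := fun z hz => (hu z hz).continuousAt.continuousWithinAt
  have h1 := int_add μ h0 hx
  have h2 := int_add μ (cont_fd hu) hx
  have hr : ContinuousOn (fun z => ‖fderiv ℝ u z - Φ z (u z)‖) (closedBall c ρ) :=
    ((cont_fd hu).sub (hΦ.clm_apply h0)).norm
  have h3 := int_add μ hr hx
  have h4 := shift_le μ hr (fun _ => norm_nonneg _) hx
  have hc : IntegrableOn (fun _ : V => o * C) (closedBall (0 : V) δ) μ :=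
    integrableOn_const (isCompact_closedBall _ _).measure_lt_top.ne
  rw [av, av, map_smul, ← smul_sub, ← (Φ x).integral_comp_comm h1,
    ← integral_sub h2 ((Φ x).integrable_comp h1), norm_smul, norm_inv, Real.norm_of_nonneg hv.le,
    inv_mul_le_iff₀ hv, mul_add, mul_div_cancel₀ _ hv.ne']
  refine (norm_integral_le_of_norm_le (h3.add hc) ?_).trans ?_
  · filter_upwards [ae_restrict_mem measurableSet_closedBall] with y hy
    have e : fderiv ℝ u (x + y) - Φ x (u (x + y)) =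
        (fderiv ℝ u (x + y) - Φ (x + y) (u (x + y))) + (Φ (x + y) - Φ x) (u (x + y)) := by
      rw [sub_apply]; abel
    rw [e]
    refine (norm_add_le _ _).trans (add_le_add le_rfl ?_)
    exact ((Φ (x + y) - Φ x).le_opNorm _).trans (mul_le_mul (ho y hy) (hC _ (mem_add hx hy))
      (norm_nonneg _) (((Φ (x + y) - Φ x).opNorm_nonneg).trans (ho y hy)))
  · rw [show (∫ y in closedBall (0 : V) δ, ((fun y => ‖fderiv ℝ u (x + y) - Φ (x + y) (u (x + y))‖) +
        fun _ : V => o * C) y ∂μ) = _ from integral_add h3 hc, setIntegral_const, smul_eq_mul]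
    exact add_le_add h4 le_rfl

theorem seg_le {u : V → W} {c x y : V} {ρ δ : ℝ} (hδ : 0 < δ)
    (hu : ∀ z ∈ closedBall c ρ, ContDiffAt ℝ 1 u z) (hx : x ∈ ball c (ρ - δ))
    (hy : y ∈ closedBall (0 : V) δ) :
    ‖u (x + y) - u x‖ₑ ≤ ∫⁻ t in Icc (0 : ℝ) 1, ENNReal.ofReal δ *
      (closedBall c ρ).indicator (fun z => ‖fderiv ℝ u z‖ₑ) (x + t • y) := by
  have hy' := mem_closedBall_zero_iff.1 hy
  have hm : ∀ t ∈ Icc (0 : ℝ) 1, x + t • y ∈ closedBall c ρ := fun t ht => mem_add hx (by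
    rw [mem_closedBall_zero_iff, norm_smul, Real.norm_of_nonneg ht.1]
    nlinarith [ht.1, ht.2, norm_nonneg y])
  have hl : ContDiff ℝ 1 fun t : ℝ => x + t • y := by fun_prop
  have := enorm_sub_le_lintegral_deriv_of_contDiffOn_Icc (f := fun t : ℝ => u (x + t • y))
    (fun t ht => ((hu _ (hm t ht)).comp t hl.contDiffAt).contDiffWithinAt) zero_le_one
  simp only [one_smul, zero_smul, add_zero] at this
  refine this.trans (setLIntegral_mono' measurableSet_Icc fun t ht => ?_)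
  have hd : HasDerivAt (fun t : ℝ => u (x + t • y)) (fderiv ℝ u (x + t • y) y) t := by
    have a : HasDerivAt (fun t : ℝ => x + t • y) y t := by
      simpa using ((hasDerivAt_id t).smul_const y).const_add x
    exact ((hu _ (hm t ht)).differentiableAt one_ne_zero).hasFDerivAt.comp_hasDerivAt t a
  rw [hd.deriv, indicator_of_mem (hm t ht), ← ofReal_norm, ← ofReal_norm,
    ← ENNReal.ofReal_mul hδ.le]
  refine ENNReal.ofReal_le_ofReal (((fderiv ℝ u (x + t • y)).le_opNorm y).trans ?_)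
  rw [mul_comm]
  exact mul_le_mul_of_nonneg_right hy' (norm_nonneg _)

theorem av_close {u : V → W} {c : V} {ρ δ : ℝ} {K : Set V} (hδ : 0 < δ)
    (hu : ∀ z ∈ closedBall c ρ, ContDiffAt ℝ 1 u z) (hK : MeasurableSet K)
    (hx : K ⊆ ball c (ρ - δ)) :
    ∫⁻ x in K, ‖u x - av μ δ u x‖ₑ ∂μ ≤
      ENNReal.ofReal δ * ∫⁻ z in closedBall c ρ, ‖fderiv ℝ u z‖ₑ ∂μ := by
  have hv := vol_pos μ hδ
  have hf := (isCompact_closedBall (0 : V) δ).measure_lt_top (μ := μ)
  have h0 : ContinuousOn u (closedBall c ρ) := fun z hz => (hu z hz).continuousAt.continuousWithinAt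
  set G : V → ℝ≥0∞ := fun w => ENNReal.ofReal δ *
    (closedBall c ρ).indicator (fun z => ‖fderiv ℝ u z‖ₑ) w with hG
  have mG : Measurable G :=
    ((measurable_fderiv ℝ u).enorm.indicator measurableSet_closedBall).const_mul _
  have iG : ∫⁻ w, G w ∂μ = ENNReal.ofReal δ * ∫⁻ z in closedBall c ρ, ‖fderiv ℝ u z‖ₑ ∂μ := by
    rw [hG, lintegral_const_mul' _ _ ENNReal.ofReal_ne_top,
      lintegral_indicator measurableSet_closedBall]
  set ν := (μ.restrict (closedBall (0 : V) δ)).prod (volume.restrict (Icc (0 : ℝ) 1)) with hν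
  have m2 : Measurable fun q : V × V × ℝ => G (q.1 + q.2.2 • q.2.1) := mG.comp (by fun_prop)
  have p1 : ∀ x ∈ K, ‖u x - av μ δ u x‖ₑ ≤
      (μ (closedBall (0 : V) δ))⁻¹ * ∫⁻ q, G (x + q.2 • q.1) ∂ν := fun x hxK => by
    have e : av μ δ u x - u x = (μ.real (closedBall (0 : V) δ))⁻¹ •
        ∫ y in closedBall (0 : V) δ, (u (x + y) - u x) ∂μ := by
      rw [integral_sub (int_add μ h0 (hx hxK)) (integrableOn_const hf.ne), setIntegral_const,
        smul_sub, inv_smul_smul₀ hv.ne', av]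
    rw [enorm_sub_rev, e, enorm_smul, hν,
      lintegral_prod (fun q : V × ℝ => G (x + q.2 • q.1))
        (m2.comp measurable_prodMk_left).aemeasurable]
    refine mul_le_mul' (le_of_eq ?_) ((enorm_integral_le_lintegral_enorm _).trans
      (setLIntegral_mono' measurableSet_closedBall fun y hy => seg_le hδ hu (hx hxK) hy))
    rw [Real.enorm_eq_ofReal (inv_pos.2 hv).le, ENNReal.ofReal_inv_of_pos hv,
      ofReal_measureReal hf.ne]
  refine (setLIntegral_mono' hK p1).trans ((setLIntegral_le_lintegral _ _).trans (le_of_eq ?_))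
  have hp := (measure_closedBall_pos μ (0 : V) hδ).ne'
  rw [lintegral_const_mul' _ _ (ENNReal.inv_ne_top.2 hp),
    lintegral_lintegral_swap (f := fun x (q : V × ℝ) => G (x + q.2 • q.1)) m2.aemeasurable]
  simp only [lintegral_add_right_eq_self, lintegral_const, iG]
  rw [hν, ← univ_prod_univ, Measure.prod_prod, Measure.restrict_apply_univ,
    Measure.restrict_apply_univ, Real.volume_Icc, sub_zero, ENNReal.ofReal_one, mul_one,
    mul_comm (_ * _), ← mul_assoc, ENNReal.inv_mul_cancel hp hf.ne, one_mul]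

theorem unif {ι : Type} {l : Filter ι} {a : ι → V → W} {U : V → W} {S : Set V} {Λ : ℝ}
    (hS : TotallyBounded S) (hΛ : 0 < Λ) [l.NeBot]
    (ha : ∀ᶠ p in l, ∀ x ∈ S, ∀ y ∈ S, ‖a p x - a p y‖ ≤ Λ * ‖x - y‖)
    (hU : ∀ x ∈ S, Tendsto (fun p => a p x) l (𝓝 (U x))) {ε : ℝ} (hε : 0 < ε) :
    ∀ᶠ p in l, ∀ x ∈ S, ‖a p x - U x‖ ≤ ε := by
  have h1 : ∀ x ∈ S, ∀ y ∈ S, ‖U x - U y‖ ≤ Λ * ‖x - y‖ := fun x hx y hy =>
    le_of_tendsto ((hU x hx).sub (hU y hy)).norm (ha.mono fun p hp => hp x hx y hy)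
  obtain ⟨t, ht, hf, hc⟩ := finite_approx_of_totallyBounded hS (ε / 3 / Λ) (by positivity)
  have h2 : ∀ᶠ p in l, ∀ y ∈ t, dist (a p y) (U y) < ε / 3 :=
    (eventually_all_finite hf).2 fun y hy => Metric.tendsto_nhds.1 (hU y (ht hy)) _ (by positivity)
  filter_upwards [ha, h2] with p hp hq x hx
  obtain ⟨y, hy, hxy⟩ := mem_iUnion₂.1 (hc hx)
  rw [mem_ball, dist_eq_norm, lt_div_iff₀' hΛ] at hxy
  have e : a p x - U x = (a p x - a p y) + (a p y - U y) - (U x - U y) := by abel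
  have := hq y hy
  rw [dist_eq_norm] at this
  rw [e]
  refine (norm_sub_le _ _).trans ((add_le_add (norm_add_le _ _) le_rfl).trans ?_)
  linarith [hp x hx y (ht hy), h1 x hx y (ht hy)]

theorem boot {U : V → W} {Φ : V → W →L[ℝ] V →L[ℝ] W} {S : Set V} (hS : IsOpen S)
    (hΦ : ContDiffOn ℝ ∞ Φ S) (hU : ∀ z ∈ S, HasFDerivAt U (Φ z (U z)) z) :
    ContDiffOn ℝ ∞ U S := by
  have hd : DifferentiableOn ℝ U S := fun z hz => (hU z hz).differentiableAt.differentiableWithinAt
  refine contDiffOn_infty.2 fun k => ?_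
  induction k with
  | zero => exact contDiffOn_zero.2 hd.continuousOn
  | succ k ih =>
    rw [Nat.cast_succ, contDiffOn_succ_iff_fderiv_of_isOpen hS]
    exact ⟨hd, fun h => absurd h (by simp), ((hΦ.of_le (by exact_mod_cast le_top)).clm_apply
      ih).congr fun z hz => (hU z hz).fderiv⟩

theorem lim0 {ι : Type} (l : Filter ι) [l.NeBot] (u : ι → V → W) (δ : ι → ℝ) (U : V → W)
    (Φ : V → W →L[ℝ] V →L[ℝ] W) (c : V) (ρ C : ℝ) (hΦ : ContinuousOn Φ (closedBall c ρ))
    (hu : ∀ᶠ a in l, ∀ z ∈ closedBall c ρ, ContDiffAt ℝ 1 (u a) z ∧ ‖u a z‖ ≤ C)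
    (hδ : Tendsto δ l (𝓝[>] 0))
    (hU : ∀ x ∈ ball c ρ, Tendsto (fun a => av μ (δ a) (u a) x) l (𝓝 (U x)))
    (hr : Tendsto (fun a => ∫ z in closedBall c ρ, ‖fderiv ℝ (u a) z - Φ z (u a z)‖ ∂μ) l (𝓝 0))
    (hq : Tendsto (fun a => (∫ z in closedBall c ρ, ‖fderiv ℝ (u a) z - Φ z (u a z)‖ ∂μ) /
      μ.real (closedBall (0 : V) (δ a))) l (𝓝 0)) :
    (∀ z ∈ ball c ρ, HasFDerivAt U (Φ z (U z)) z) ∧
      ∀ K, IsCompact K → K ⊆ ball c ρ →
        Tendsto (fun a => ∫⁻ z in K, ‖u a z - U z‖ₑ ∂μ) l (𝓝 0) := by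
  have hK := isCompact_closedBall c ρ
  obtain ⟨hδ0, hδp⟩ := tendsto_nhdsWithin_iff.1 hδ
  have hin : ∀ s, s < ρ → ∀ᶠ a in l, ball c s ⊆ ball c (ρ - δ a) := fun s hs =>
    (hδ0.eventually (gt_mem_nhds (sub_pos.2 hs))).mono fun a ha => ball_subset_ball (by linarith)
  obtain ⟨L, hL⟩ := hK.exists_bound_of_continuousOn (E := W →L[ℝ] V →L[ℝ] W) hΦ
  have hsys : ∀ s, s < ρ → ∀ ε, 0 < ε → ∀ᶠ a in l, ∀ x ∈ ball c s,
      HasFDerivAt (av μ (δ a) (u a)) (av μ (δ a) (fderiv ℝ (u a)) x) x ∧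
      ‖av μ (δ a) (fderiv ℝ (u a)) x - Φ x (av μ (δ a) (u a) x)‖ ≤ ε ∧
      ‖av μ (δ a) (u a) x‖ ≤ C := fun s hs ε hε => by
    obtain ⟨d, hd, hd'⟩ := (Metric.uniformContinuousOn_iff_le (β := W →L[ℝ] V →L[ℝ] W)).1
      (hK.uniformContinuousOn_of_continuous hΦ) (ε / 2 / (|C| + 1)) (by positivity)
    filter_upwards [hin s hs, hu, hδp, hδ0.eventually (gt_mem_nhds hd),
      hq.eventually (gt_mem_nhds (half_pos hε))] with a a1 a2 a3 a4 a5 x hx
    refine ⟨(der_av μ (fun z hz => (a2 z hz).1) (a1 hx)).const_smul _, ?_,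
      av_le μ a3 (fun z hz => (a2 z hz).2) (a1 hx)⟩
    refine (av_sys μ (o := ε / 2 / (|C| + 1)) a3 (fun z hz => (a2 z hz).1)
      (fun z hz => (a2 z hz).2) hΦ (a1 hx) fun y hy => ?_).trans ?_
    · have := hd' _ (mem_add (a1 hx) hy) x (ball_subset_closedBall (ball_subset_ball hs.le hx)) (by
        rw [dist_eq_norm, add_sub_cancel_left]
        exact (mem_closedBall_zero_iff.1 hy).trans a4.le)
      exact (dist_eq_norm (E := W →L[ℝ] V →L[ℝ] W) _ _).symm.trans_le this
    · have : ε / 2 / (|C| + 1) * C ≤ ε / 2 := by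
        rw [div_mul_eq_mul_div, div_le_iff₀ (by positivity)]
        exact mul_le_mul_of_nonneg_left ((le_abs_self C).trans (by linarith)) (half_pos hε).le
      linarith
  have hΦ' : ∀ z ∈ closedBall c ρ, ∀ w, ‖Φ z w‖ ≤ (|L| + 1) * ‖w‖ := fun z hz w =>
    ((Φ z).le_opNorm w).trans (mul_le_mul_of_nonneg_right
      ((hL z hz).trans ((le_abs_self L).trans (by linarith))) (norm_nonneg _))
  have hun : ∀ s, s < ρ → ∀ ε, 0 < ε → ∀ᶠ a in l, ∀ x ∈ ball c s,
      ‖av μ (δ a) (u a) x - U x‖ ≤ ε := fun s hs ε hε => by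
    refine unif (Λ := 1 + (|L| + 1) * |C|) 
      ((isCompact_closedBall c s).totallyBounded.subset ball_subset_closedBall) (by positivity) ?_
      (fun x hx => hU x (ball_subset_ball hs.le hx)) hε
    filter_upwards [hsys s hs 1 one_pos] with a ha x hx y hy
    refine (convex_ball c s).norm_image_sub_le_of_norm_hasFDerivWithin_le
      (fun z hz => (ha z hz).1.hasFDerivWithinAt) (fun z hz => ?_) hy hx
    have b1 := hΦ' z (ball_subset_closedBall (ball_subset_ball hs.le hz)) (av μ (δ a) (u a) z)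
    have b2 := norm_le_norm_sub_add (av μ (δ a) (fderiv ℝ (u a)) z) (Φ z (av μ (δ a) (u a) z))
    have b3 : (|L| + 1) * ‖av μ (δ a) (u a) z‖ ≤ (|L| + 1) * |C| :=
      mul_le_mul_of_nonneg_left ((ha z hz).2.2.trans (le_abs_self C)) (by positivity)
    linarith [(ha z hz).2.1]
  have hD : ∀ z ∈ ball c ρ, HasFDerivAt U (Φ z (U z)) z := fun z hz => by
    obtain ⟨s, h1, h2⟩ := exists_between (mem_ball.1 hz)
    have hn : ball c s ∈ 𝓝 z := isOpen_ball.mem_nhds h1
    refine hasFDerivAt_of_tendstoUniformlyOnFilter (l := l) (f := fun a => av μ (δ a) (u a))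
      (f' := fun a => av μ (δ a) (fderiv ℝ (u a))) (g' := fun x => Φ x (U x)) ?_ ?_ ?_
    · refine Metric.tendstoUniformlyOnFilter_iff.2 fun ε hε => ?_
      filter_upwards [((hsys s h2 (ε / 3) (by positivity)).and
        (hun s h2 (ε / 3 / (|L| + 1)) (by positivity))).prod_mk hn] with q ⟨⟨q1, q2⟩, q3⟩
      have b1 := hΦ' _ (ball_subset_closedBall (ball_subset_ball h2.le q3))
        (av μ (δ q.1) (u q.1) q.2 - U q.2)
      have b2 := q2 _ q3
      rw [le_div_iff₀' (by positivity)] at b2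
      rw [map_sub] at b1
      rw [dist_comm, dist_eq_norm]
      linarith [(q1 _ q3).2.1, norm_sub_le_norm_sub_add_norm_sub
        (av μ (δ q.1) (fderiv ℝ (u q.1)) q.2) (Φ q.2 (av μ (δ q.1) (u q.1) q.2)) (Φ q.2 (U q.2))]
    · filter_upwards [(hsys s h2 1 one_pos).prod_mk hn] with q ⟨q1, q3⟩ using (q1 _ q3).1
    · filter_upwards [isOpen_ball.mem_nhds hz] with y hy using hU y hy
  refine ⟨hD, fun K h1 h2 => ?_⟩
  obtain ⟨s, hs, h3⟩ := exists_lt_subset_ball h1.isClosed h2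
  set B : ℝ := 1 + μ.real (closedBall c ρ) * ((|L| + 1) * |C|) with hB
  have hB0 : 0 < B := by positivity
  have hm : 0 ≤ μ.real K := measureReal_nonneg
  refine ENNReal.tendsto_nhds_zero.2 fun ε hε => ?_
  obtain ⟨e, he, he'⟩ : ∃ e : ℝ, 0 < e ∧ ENNReal.ofReal e ≤ ε := by
    rcases eq_or_ne ε ⊤ with rfl | h
    · exact ⟨1, one_pos, le_top⟩
    · exact ⟨ε.toReal, ENNReal.toReal_pos hε.ne' h, ENNReal.ofReal_toReal_le⟩
  filter_upwards [hin s hs, hu, hδp, hδ0.eventually (gt_mem_nhds (show 0 < e / 2 / B by positivity)),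
    hr.eventually (gt_mem_nhds one_pos), hun s hs (e / 2 / (μ.real K + 1)) (by positivity)]
    with a a1 a2 a3 a4 a5 a6
  have c1 := cont_fd fun z hz => (a2 z hz).1
  have c0 : ContinuousOn (u a) (closedBall c ρ) := fun z hz =>
    (a2 z hz).1.continuousAt.continuousWithinAt
  have b1 := av_close μ a3 (fun z hz => (a2 z hz).1) h1.measurableSet (h3.trans a1)
  have b2 : ∫ z in closedBall c ρ, ‖fderiv ℝ (u a) z‖ ∂μ ≤ B := by
    have i1 := ((c1.sub (hΦ.clm_apply c0)).norm).integrableOn_compact (μ := μ) hK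
    have i2 : IntegrableOn (fun _ : V => (|L| + 1) * |C|) (closedBall c ρ) μ :=
      integrableOn_const hK.measure_lt_top.ne
    refine (setIntegral_mono_on (c1.norm.integrableOn_compact hK) (i1.add i2)
      measurableSet_closedBall fun z hz => ?_).trans ?_
    · have b3 : (|L| + 1) * ‖u a z‖ ≤ (|L| + 1) * |C| :=
        mul_le_mul_of_nonneg_left ((a2 z hz).2.trans (le_abs_self C)) (by positivity)
      exact (norm_le_norm_sub_add _ (Φ z (u a z))).trans
        (add_le_add le_rfl ((hΦ' z hz _).trans b3))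
    · refine (integral_add i1 i2).trans_le ?_
      rw [setIntegral_const, smul_eq_mul]
      exact add_le_add a5.le le_rfl
  rw [← ofReal_integral_norm_eq_lintegral_enorm (c1.integrableOn_compact hK),
    ← ENNReal.ofReal_mul (le_of_lt a3)] at b1
  have b4 : δ a * ∫ z in closedBall c ρ, ‖fderiv ℝ (u a) z‖ ∂μ ≤ e / 2 :=
    (mul_le_mul_of_nonneg_left b2 (le_of_lt a3)).trans ((lt_div_iff₀ hB0).1 a4).le
  calc _ ≤ ∫⁻ z in K, (‖u a z - av μ (δ a) (u a) z‖ₑ +
          ENNReal.ofReal (e / 2 / (μ.real K + 1))) ∂μ :=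
        setLIntegral_mono' h1.measurableSet fun z hz => by
          rw [← sub_add_sub_cancel (u a z) (av μ (δ a) (u a) z) (U z)]
          refine (enorm_add_le _ _).trans (add_le_add le_rfl ?_)
          rw [← ofReal_norm]
          exact ENNReal.ofReal_le_ofReal (a6 z (h3 hz))
    _ ≤ ENNReal.ofReal (e / 2) + ENNReal.ofReal (e / 2) := by
        rw [lintegral_add_right _ measurable_const, setLIntegral_const,
          ← ofReal_measureReal h1.measure_lt_top.ne, ← ENNReal.ofReal_mul (by positivity)]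
        refine add_le_add (b1.trans (ENNReal.ofReal_le_ofReal b4)) (ENNReal.ofReal_le_ofReal ?_)
        rw [div_mul_eq_mul_div, div_le_iff₀ (by positivity)]
        nlinarith
    _ ≤ ε := by
        rw [← ENNReal.ofReal_add (by positivity) (by positivity), add_halves]
        exact he'

/-- Bounded approximate solutions of a smooth linear first order system converge in the mean,
along an ultrafilter, to a smooth solution. -/
theorem lim {ι : Type} (l : Ultrafilter ι) (u : ι → V → W) (Φ : V → W →L[ℝ] V →L[ℝ] W) (c : V)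
    (ρ C : ℝ) (hΦ : ∀ z ∈ ball c ρ, ContDiffAt ℝ ∞ Φ z)
    (hu : ∀ᶠ a in l, ∀ z ∈ ball c ρ, ContDiffAt ℝ 1 (u a) z ∧ ‖u a z‖ ≤ C)
    (hr : Tendsto (fun a => ∫⁻ z in ball c ρ, ‖fderiv ℝ (u a) z - Φ z (u a z)‖ₑ ∂μ) l (𝓝 0)) :
    ∃ U : V → W, (∀ z ∈ ball c ρ, ContDiffAt ℝ ∞ U z ∧ HasFDerivAt U (Φ z (U z)) z) ∧
      ∀ K, IsCompact K → K ⊆ ball c ρ →
        Tendsto (fun a => ∫⁻ z in K, ‖u a z - U z‖ₑ ∂μ) l (𝓝 0) := by
  set F : Filter (ℝ × ι) := (𝓝[>] (0 : ℝ)).curry l with hF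
  have : F.NeBot := neBot_iff.2 fun h => by
    have : ∀ᶠ q in F, False := by rw [h]; exact eventually_bot
    exact (eventually_curry_iff.1 this).exists.elim fun _ h => h.exists.elim fun _ h => h
  have h0 := Ultrafilter.of_le F
  set l' := Ultrafilter.of F
  have h1 : Tendsto Prod.fst (l' : Filter (ℝ × ι)) (𝓝[>] 0) :=
    tendsto_fst.mono_left (h0.trans curry_le_prod)
  have h2 : Tendsto Prod.snd (l' : Filter (ℝ × ι)) l :=
    tendsto_snd.mono_left (h0.trans curry_le_prod)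
  obtain ⟨hδ0, hδp⟩ := tendsto_nhdsWithin_iff.1 h1
  have hex : ∀ x ∈ ball c ρ, ∃ w, Tendsto (fun q : ℝ × ι => av μ q.1 (u q.2) x) l' (𝓝 w) :=
    fun x hx => by
    obtain ⟨s, s1, s2⟩ := exists_between (mem_ball.1 hx)
    obtain ⟨w, -, hw⟩ := (isCompact_closedBall (0 : W) C).ultrafilter_le_nhds
      (l'.map fun q => av μ q.1 (u q.2) x) (le_principal_iff.2 (mem_map.2 (by
        filter_upwards [hδ0.eventually (gt_mem_nhds (sub_pos.2 s1)), h2.eventually hu, hδp]
          with a a1 a2 a3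
        exact mem_closedBall_zero_iff.2 (av_le μ (c := c) (ρ := s) a3
          (fun z hz => (a2 z (closedBall_subset_ball s2 hz)).2) (mem_ball.2 (by linarith))))))
    exact ⟨w, hw⟩
  choose! U hU using hex
  have key : ∀ s, s < ρ → _ := fun s hs => by
    have hb : closedBall c s ⊆ ball c ρ := closedBall_subset_ball hs
    have cΦ : ContinuousOn Φ (closedBall c s) := fun z hz =>
      (hΦ z (hb hz)).continuousAt.continuousWithinAt
    have hr' : Tendsto (fun a => ∫ z in closedBall c s, ‖fderiv ℝ (u a) z - Φ z (u a z)‖ ∂μ) l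
        (𝓝 0) := by
      refine ((ENNReal.tendsto_toReal ENNReal.zero_ne_top).comp
        (tendsto_of_tendsto_of_tendsto_of_le_of_le tendsto_const_nhds hr (fun _ => zero_le)
          fun a => lintegral_mono_set hb)).congr' ?_
      filter_upwards [hu] with a ha
      exact (integral_norm_eq_lintegral_enorm (((cont_fd fun z hz => (ha z (hb hz)).1).sub
        (cΦ.clm_apply fun z hz =>
          (ha z (hb hz)).1.continuousAt.continuousWithinAt)).aestronglyMeasurable
        measurableSet_closedBall)).symm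
    exact lim0 μ (l' : Filter (ℝ × ι)) (fun q => u q.2) Prod.fst U Φ c s C cΦ
      ((h2.eventually hu).mono fun q hq z hz => hq z (hb hz)) h1
      (fun x hx => hU x (ball_subset_ball hs.le hx)) (hr'.comp h2)
      ((Tendsto.curry (la := 𝓝[>] (0 : ℝ)) (f := fun d a =>
        (∫ z in closedBall c s, ‖fderiv ℝ (u a) z - Φ z (u a z)‖ ∂μ) /
          μ.real (closedBall (0 : V) d))
        (Eventually.of_forall fun d => by simpa using hr'.div_const _)).mono_left h0)
  have a1 : ∀ z ∈ ball c ρ, HasFDerivAt U (Φ z (U z)) z := fun z hz =>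
    let ⟨s, s1, s2⟩ := exists_between (mem_ball.1 hz)
    (key s s2).1 z s1
  have e : map Prod.snd (l' : Filter (ℝ × ι)) = l := l.unique h2
  refine ⟨U, fun z hz => ⟨(boot isOpen_ball (fun z hz => (hΦ z hz).contDiffWithinAt)
    a1).contDiffAt (isOpen_ball.mem_nhds hz), a1 z hz⟩, fun K k1 k2 => ?_⟩
  obtain ⟨s, hs, h3⟩ := exists_lt_subset_ball k1.isClosed k2
  rw [← e]
  exact tendsto_map'_iff.2 ((key s hs).2 K k1 h3)

end Pool.Agent.Lib.TB53
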